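import Pool.Agent.Q260.GX.Spec

set_option autoImplicit false

/-!
# Job PAIR of project GX: close pairs and pair sums
-/

namespace Pool.Agent.Q24.GX

open MeasureTheory Filter Topology Set
open Pool.Agent.Y749.Rig (nT nT_pos)
open Pool.Agent.Q260.GX

/-- the kernel of the pair sum in terms of the scaled differences -/
lemma kr_eq {a L v : ℝ} (ha : 0 < a) (hL : 0 < L) :
    4 * (a / L) / (4 * (a / L) ^ 2 + v ^ 2) / L = 4 * a / (4 * a ^ 2 + (v * L) ^ 2) := by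
  have h1 : 4 * (a / L) ^ 2 + v ^ 2 = (4 * a ^ 2 + (v * L) ^ 2) / L ^ 2 := by
    field_simp
  rw [h1]
  have h2 : 0 < 4 * a ^ 2 + (v * L) ^ 2 := by positivity
  field_simp

lemma RR_eq (G : Dat) {a T : ℝ} (ha : 0 < a) (hn : 0 < nT T) (hL : 0 < Real.log T) :
    nT T * G.RR a T = ∑ i ∈ G.FZ T, ∑ j ∈ G.FZ T, (G.mu i : ℝ) * G.mu j *
      (4 * a / (4 * a ^ 2 + ((G.ga i - G.ga j) * Real.log T) ^ 2)) := by
  have e : nT T * G.RR a T = G.QQ (a / Real.log T) T / Real.log T := by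
    unfold Dat.RR
    field_simp
  rw [e]
  unfold Dat.QQ
  rw [Finset.sum_div]
  refine Finset.sum_congr rfl fun i _ => ?_
  rw [Finset.sum_div]
  refine Finset.sum_congr rfl fun j _ => ?_
  rw [← kr_eq ha hL, mul_div_assoc]

lemma kr_near {a β w : ℝ} (ha : 0 < a) (hw : w ≤ 4 * Real.pi ^ 2 * β ^ 2) (hw0 : 0 ≤ w) :
    1 / (a * (1 + Real.pi ^ 2 * β ^ 2 / a ^ 2)) ≤ 4 * a / (4 * a ^ 2 + w) := by
  have hpi := Real.pi_pos
  rw [div_le_div_iff₀ (by positivity) (by positivity)]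
  have e : 4 * a * (a * (1 + Real.pi ^ 2 * β ^ 2 / a ^ 2)) = 4 * a ^ 2 + 4 * Real.pi ^ 2 * β ^ 2 := by
    field_simp
  rw [e, one_mul]
  linarith

lemma scaled_sq {v L β : ℝ} (hL : 0 < L) (h : |v| * L / (2 * Real.pi) ≤ β) :
    (v * L) ^ 2 ≤ 4 * Real.pi ^ 2 * β ^ 2 := by
  have hpi := Real.pi_pos
  rw [div_le_iff₀ (by positivity)] at h
  have h1 : (v * L) ^ 2 = (|v| * L) ^ 2 := by rw [mul_pow, mul_pow, sq_abs]
  rw [h1]
  have h2 : (|v| * L) ^ 2 ≤ (β * (2 * Real.pi)) ^ 2 := pow_le_pow_left₀ (by positivity) h 2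
  linarith [show (β * (2 * Real.pi)) ^ 2 = 4 * Real.pi ^ 2 * β ^ 2 by ring]

lemma scaled_sq' {v L β : ℝ} (hL : 0 < L) (hβ : 0 < β) (h : ¬ |v| * L / (2 * Real.pi) ≤ β) :
    4 * β ^ 2 ≤ (v * L) ^ 2 := by
  have hpi := Real.pi_gt_three
  rw [not_le, lt_div_iff₀ (by positivity)] at h
  have h1 : (v * L) ^ 2 = (|v| * L) ^ 2 := by rw [mul_pow, mul_pow, sq_abs]
  rw [h1]
  have h2 : (2 * β) ^ 2 ≤ (|v| * L) ^ 2 := by
    apply pow_le_pow_left₀ (by positivity)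
    nlinarith
  linarith [show (2 * β) ^ 2 = 4 * β ^ 2 by ring]

lemma kr_le_inv {a w : ℝ} (ha : 0 < a) (hw0 : 0 ≤ w) : 4 * a / (4 * a ^ 2 + w) ≤ 1 / a := by
  rw [div_le_div_iff₀ (by positivity) ha]
  nlinarith

lemma kr_far {a β w : ℝ} (ha : 0 < a) (hβ : 0 < β) (hw : 4 * β ^ 2 ≤ w) :
    4 * a / (4 * a ^ 2 + w) ≤ a * (1 + 1 / β ^ 2) * (4 * 1 / (4 * 1 ^ 2 + w)) := by
  have hw0 : 0 < w := lt_of_lt_of_le (by positivity) hw
  have h1 : 4 * a / (4 * a ^ 2 + w) ≤ a * (4 / w) := by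
    rw [mul_div_assoc', mul_comm a 4]
    apply div_le_div_of_nonneg_left (by positivity) hw0
    have : 0 ≤ 4 * a ^ 2 := by positivity
    linarith
  have h2 : 4 / w ≤ (1 + 1 / β ^ 2) * (4 * 1 / (4 * 1 ^ 2 + w)) := by
    rw [mul_div_assoc', div_le_div_iff₀ hw0 (by positivity)]
    have h3 : 4 ≤ w / β ^ 2 := by
      rw [le_div_iff₀ (by positivity)]
      exact hw
    have e : (1 + 1 / β ^ 2) * (4 * 1) * w = 4 * w + 4 * (w / β ^ 2) := by ring
    rw [e]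
    linarith
  calc 4 * a / (4 * a ^ 2 + w) ≤ a * (4 / w) := h1
    _ ≤ a * ((1 + 1 / β ^ 2) * (4 * 1 / (4 * 1 ^ 2 + w))) := mul_le_mul_of_nonneg_left h2 ha.le
    _ = _ := by ring

lemma Pc_le (G : Dat) {a β T : ℝ} (ha : 0 < a) (hn : 0 < nT T) (hL : 0 < Real.log T) :
    G.Pc β T * (1 / (a * (1 + Real.pi ^ 2 * β ^ 2 / a ^ 2))) ≤ nT T * G.RR a T := by
  have hpi := Real.pi_pos
  rw [RR_eq G ha hn hL]
  unfold Dat.Pc
  rw [Finset.sum_mul]
  refine Finset.sum_le_sum fun i _ => ?_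
  rw [Finset.sum_mul]
  refine Finset.sum_le_sum fun j _ => ?_
  rw [mul_assoc]
  refine mul_le_mul_of_nonneg_left ?_ (by positivity)
  split_ifs with h
  · rw [one_mul]
    exact kr_near ha (scaled_sq hL h) (sq_nonneg _)
  · rw [zero_mul]
    positivity

lemma RR_le (G : Dat) {a β T : ℝ} (ha : 0 < a) (hβ : 0 < β) (hn : 0 < nT T) (hL : 0 < Real.log T) :
    nT T * G.RR a T ≤ G.Pc β T * (1 / a) + a * (1 + 1 / β ^ 2) * (nT T * G.RR 1 T) := by
  rw [RR_eq G ha hn hL, RR_eq G one_pos hn hL]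
  unfold Dat.Pc
  rw [Finset.sum_mul, Finset.mul_sum, ← Finset.sum_add_distrib]
  refine Finset.sum_le_sum fun i _ => ?_
  rw [Finset.sum_mul, Finset.mul_sum, ← Finset.sum_add_distrib]
  refine Finset.sum_le_sum fun j _ => ?_
  have e : (G.mu i : ℝ) * G.mu j * (if |G.ga i - G.ga j| * Real.log T / (2 * Real.pi) ≤ β then 1 else 0) *
      (1 / a) + a * (1 + 1 / β ^ 2) * ((G.mu i : ℝ) * G.mu j *
        (4 * 1 / (4 * 1 ^ 2 + ((G.ga i - G.ga j) * Real.log T) ^ 2))) =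
      (G.mu i : ℝ) * G.mu j * ((if |G.ga i - G.ga j| * Real.log T / (2 * Real.pi) ≤ β then 1 else 0) *
      (1 / a) + a * (1 + 1 / β ^ 2) *
        (4 * 1 / (4 * 1 ^ 2 + ((G.ga i - G.ga j) * Real.log T) ^ 2))) := by ring
  rw [e]
  refine mul_le_mul_of_nonneg_left ?_ (by positivity)
  split_ifs with h
  · rw [one_mul]
    have h1 := kr_le_inv (w := ((G.ga i - G.ga j) * Real.log T) ^ 2) ha (sq_nonneg _)
    have h2 : 0 ≤ a * (1 + 1 / β ^ 2) *
        (4 * 1 / (4 * 1 ^ 2 + ((G.ga i - G.ga j) * Real.log T) ^ 2)) := by positivity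
    linarith
  · rw [zero_mul, zero_add]
    exact kr_far ha hβ (scaled_sq' hL hβ h)

/-- **few close pairs from the pair sums, and conversely** -/
theorem t_PAIR : S_PAIR := by
  intro G _ hcrude
  have hpi := Real.pi_pos
  have hlog : ∀ᶠ T : ℝ in atTop, 1 ≤ Real.log T := Real.tendsto_log_atTop.eventually_ge_atTop 1
  constructor
  · intro K hK h ε hε
    obtain ⟨a0, ha0, h1⟩ := h (ε / 2) (by positivity)
    have h2 := h1 a0 ha0 le_rfl
    obtain ⟨β, hβ0, hβ⟩ : ∃ β : ℝ, 0 < β ∧ (K + ε / 2) * (1 + Real.pi ^ 2 * β ^ 2 / a0 ^ 2) ≤ K + ε := by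
      have hc : Tendsto (fun β : ℝ => (K + ε / 2) * (1 + Real.pi ^ 2 * β ^ 2 / a0 ^ 2)) (𝓝[>] 0)
          (𝓝 ((K + ε / 2) * (1 + Real.pi ^ 2 * 0 ^ 2 / a0 ^ 2))) :=
        (Continuous.tendsto (by fun_prop) 0).mono_left nhdsWithin_le_nhds
      have e : (K + ε / 2) * (1 + Real.pi ^ 2 * 0 ^ 2 / a0 ^ 2) = K + ε / 2 := by ring
      rw [e] at hc
      obtain ⟨β, h3, h4⟩ := ((hc.eventually (ge_mem_nhds (by linarith : K + ε / 2 < K + ε))).and
        (self_mem_nhdsWithin : Ioi (0 : ℝ) ∈ 𝓝[>] (0 : ℝ))).exists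
      exact ⟨β, h4, h3⟩
    refine ⟨β, hβ0, ?_⟩
    filter_upwards [h2, hlog, eventually_ge_atTop (10 : ℝ)] with T h3 hL hT
    have hn : 0 < nT T := nT_pos hT
    have hL0 : 0 < Real.log T := by linarith
    set q : ℝ := 1 + Real.pi ^ 2 * β ^ 2 / a0 ^ 2 with hq
    have hq0 : 0 < q := by positivity
    have h4 := Pc_le G (β := β) ha0 hn hL0
    rw [← hq] at h4
    have h5 : G.Pc β T ≤ q * (nT T * (a0 * G.RR a0 T)) := by
      have := mul_le_mul_of_nonneg_left h4 (show 0 ≤ a0 * q by positivity)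
      have e : a0 * q * (G.Pc β T * (1 / (a0 * q))) = G.Pc β T := by field_simp
      rw [e] at this
      linarith
    calc G.Pc β T ≤ q * (nT T * (a0 * G.RR a0 T)) := h5
      _ ≤ q * (nT T * (K + ε / 2)) :=
        mul_le_mul_of_nonneg_left (mul_le_mul_of_nonneg_left h3 hn.le) hq0.le
      _ = (K + ε / 2) * q * nT T := by ring
      _ ≤ _ := mul_le_mul_of_nonneg_right hβ hn.le
  · intro K β hβ h ε hε
    obtain ⟨K', hK', hcr⟩ := hcrude
    set D : ℝ := (1 + 1 / β ^ 2) * K' with hD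
    have hD0 : 0 < D := by positivity
    refine ⟨min 1 (ε / D), by positivity, ?_⟩
    filter_upwards [h, hcr, hlog, eventually_ge_atTop (10 : ℝ)] with T h1 h2 hL hT a ha haa
    have hn : 0 < nT T := nT_pos hT
    have hL0 : 0 < Real.log T := by linarith
    have ha1 : a ≤ 1 := haa.trans (min_le_left _ _)
    have haD : a * D ≤ ε := by
      have := haa.trans (min_le_right _ _)
      rwa [le_div_iff₀ hD0] at this
    have h3 := h2 1 one_pos le_rfl
    rw [one_mul] at h3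
    have h4 := RR_le G (β := β) ha hβ hn hL0
    have h5 : a * (1 + 1 / β ^ 2) * (nT T * G.RR 1 T) ≤ a * D * nT T := by
      have := mul_le_mul_of_nonneg_left h3 (show 0 ≤ a * (1 + 1 / β ^ 2) * nT T by positivity)
      rw [hD]
      linarith
    have h6 : nT T * (a * G.RR a T) ≤ nT T * (K + a * (a * D)) := by
      have h7 := mul_le_mul_of_nonneg_left (h4.trans (add_le_add_right h5 _)) ha.le
      have e : a * (G.Pc β T * (1 / a) + a * D * nT T) = G.Pc β T + nT T * (a * (a * D)) := by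
        field_simp
      rw [e] at h7
      have e2 : a * (nT T * G.RR a T) = nT T * (a * G.RR a T) := by ring
      rw [e2] at h7
      have e3 : nT T * (K + a * (a * D)) = K * nT T + nT T * (a * (a * D)) := by ring
      rw [e3]
      linarith
    have h7 := le_of_mul_le_mul_left h6 hn
    have h8 : a * (a * D) ≤ 1 * ε := mul_le_mul ha1 haD (by positivity) zero_le_one
    linarith

end Pool.Agent.Q24.GX
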