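import Pool.Agent.Q260.GX.Spec

set_option autoImplicit false

/-!
# Job SSR of project GX: upper bound for the primes from the pair sums
-/

namespace Pool.Agent.Q24.GX

open MeasureTheory Filter Topology Set
open Pool.Agent.Y749.Rig (one_lt_log)
open Pool.Agent.Q260.GM (LL kk LL_top ev_pos ev_le ev_L inv_top abel int_inv_sq abel_sum cb cb_cont
  cb_nonneg cb_le cb_integral cb_one_int cb_anti cb_grid kk_le kk_nonneg kk_cont kk_one_int r_lim T_top)
open Pool.Agent.Q260.GX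

lemma gd_nonneg (G : Dat) (κ a y : ℝ) : 0 ≤ G.gd κ a y := by unfold Dat.gd; positivity

lemma gd_int (G : Dat) {κ a : ℝ} (hκ : 0 < κ) (Y : ℝ) : ∫ y in (0 : ℝ)..Y, G.gd κ a y =
    κ / LL κ ^ 2 * ∫ t in (0 : ℝ)..(Y / κ), G.DD (a / LL κ) t ^ 2 := by
  unfold Dat.gd
  rw [intervalIntegral.integral_div, intervalIntegral.integral_comp_div (fun t => G.DD (a / LL κ) t ^ 2) hκ.ne',
    zero_div, smul_eq_mul]
  ring

lemma gd_integrable (G : Dat) {κ a : ℝ} {f : ℝ → ℝ} {B : ℝ} (hf : Continuous f)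
    (hgc : Continuous (G.gd κ a)) (hb : ∀ y, |f y| ≤ B * (1 / (1 + y ^ 2)))
    (h : Integrable (fun y => G.gd κ a y / (1 + y ^ 2))) : Integrable (fun y => f y * G.gd κ a y) := by
  refine (h.const_mul B).mono' (hf.mul hgc).aestronglyMeasurable (ae_of_all _ fun y => ?_)
  rw [Real.norm_eq_abs, abs_mul, abs_of_nonneg (gd_nonneg G κ a y)]
  calc |f y| * G.gd κ a y ≤ B * (1 / (1 + y ^ 2)) * G.gd κ a y :=
        mul_le_mul_of_nonneg_right (hb y) (gd_nonneg G κ a y)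
    _ = _ := by ring

lemma tail_near (G : Dat) {κ a C1 Y : ℝ} (hκ : 0 < κ) (hgc : Continuous (G.gd κ a)) (hC1 : 0 ≤ C1)
    (hG : ∀ Y : ℝ, 0 ≤ Y → Y ≤ 1 / κ ^ 2 → ∫ y in (0 : ℝ)..Y, G.gd κ a y ≤ C1 * (1 + Y))
    (hY0 : 0 ≤ Y) (hY1 : Y ≤ 1 / κ ^ 2) :
    ∫ y in Y..(1 / κ ^ 2), G.gd κ a y / (1 + y ^ 2) ≤ 10 * C1 * (1 / (1 + Y)) := by
  set B : ℝ := 1 / κ ^ 2 with hB
  have hB0 : 0 < B := by positivity
  have e0 : ∫ y in Y..B, G.gd κ a y / (1 + y ^ 2) = ∫ y in Y..B, (1 / (1 + y ^ 2)) * G.gd κ a y :=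
    intervalIntegral.integral_congr fun y _ => by ring
  have hd : ∀ y : ℝ, HasDerivAt (fun y : ℝ => 1 / (1 + y ^ 2)) (-(2 * y) / (1 + y ^ 2) ^ 2) y := by
    intro y
    have hne : (1 + y ^ 2) ≠ 0 := by positivity
    have h2 := (((hasDerivAt_id y).pow 2).const_add 1).inv hne
    refine (h2.congr_deriv ?_).congr_of_eventuallyEq (Eventually.of_forall fun z => ?_)
    · simp
    · simp [one_div]
  have hdc : Continuous fun y : ℝ => -(2 * y) / (1 + y ^ 2) ^ 2 := by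
    refine Continuous.div (by fun_prop) (by fun_prop) fun y => by positivity
  rw [e0, abel hd hdc hgc]
  have hM0 : ∀ y : ℝ, 0 ≤ y → 0 ≤ ∫ z in (0 : ℝ)..y, G.gd κ a z := fun y hy =>
    intervalIntegral.integral_nonneg hy fun z _ => gd_nonneg G _ _ _
  have b1 : 1 / (1 + B ^ 2) * (∫ y in (0 : ℝ)..B, G.gd κ a y) ≤ C1 * (2 / (1 + Y)) := by
    have h2 := hG B hB0.le le_rfl
    calc 1 / (1 + B ^ 2) * (∫ y in (0 : ℝ)..B, G.gd κ a y) ≤ 1 / (1 + B ^ 2) * (C1 * (1 + B)) :=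
          mul_le_mul_of_nonneg_left h2 (by positivity)
      _ = C1 * ((1 + B) / (1 + B ^ 2)) := by ring
      _ ≤ C1 * (2 / (1 + Y)) := by
          apply mul_le_mul_of_nonneg_left _ hC1
          rw [div_le_div_iff₀ (by positivity) (by positivity)]
          nlinarith [sq_nonneg (B - 1), mul_le_mul_of_nonneg_left hY1 (by linarith : 0 ≤ 1 + B)]
  have b2 : 0 ≤ 1 / (1 + Y ^ 2) * (∫ y in (0 : ℝ)..Y, G.gd κ a y) :=
    mul_nonneg (by positivity) (hM0 Y hY0)
  have b3 : -(∫ y in Y..B, -(2 * y) / (1 + y ^ 2) ^ 2 * ∫ z in (0 : ℝ)..y, G.gd κ a z) ≤ C1 * (8 * (1 / (1 + Y))) := by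
    rw [← intervalIntegral.integral_neg]
    have hMc : Continuous fun y : ℝ => ∫ z in (0 : ℝ)..y, G.gd κ a z :=
      intervalIntegral.continuous_primitive (fun _ _ => hgc.intervalIntegrable _ _) 0
    have h2 : ∫ y in Y..B, -(-(2 * y) / (1 + y ^ 2) ^ 2 * ∫ z in (0 : ℝ)..y, G.gd κ a z) ≤
        ∫ y in Y..B, C1 * (8 * (1 / (1 + y) ^ 2)) := by
      refine intervalIntegral.integral_mono_on hY1 ((hdc.mul hMc).neg.intervalIntegrable _ _) ?_ fun y hy => ?_
      · apply ContinuousOn.intervalIntegrable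
        rw [uIcc_of_le hY1]
        refine continuousOn_const.mul (continuousOn_const.mul (continuousOn_const.div (by fun_prop) fun y hy => ?_))
        have : 0 < 1 + y := by linarith [hy.1]
        positivity
      · have hy0 : 0 ≤ y := hY0.trans hy.1
        have h3 := hG y hy0 hy.2
        have e : -(-(2 * y) / (1 + y ^ 2) ^ 2 * ∫ z in (0 : ℝ)..y, G.gd κ a z) =
            2 * y / (1 + y ^ 2) ^ 2 * ∫ z in (0 : ℝ)..y, G.gd κ a z := by ring
        rw [e]
        calc 2 * y / (1 + y ^ 2) ^ 2 * ∫ z in (0 : ℝ)..y, G.gd κ a z ≤ 2 * y / (1 + y ^ 2) ^ 2 * (C1 * (1 + y)) :=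
              mul_le_mul_of_nonneg_left h3 (by positivity)
          _ = C1 * (2 * y * (1 + y) / (1 + y ^ 2) ^ 2) := by ring
          _ ≤ C1 * (8 * (1 / (1 + y) ^ 2)) := by
              apply mul_le_mul_of_nonneg_left _ hC1
              rw [mul_one_div, div_le_div_iff₀ (by positivity) (by positivity)]
              have h4 : (1 + y) ^ 2 ≤ 2 * (1 + y ^ 2) := by nlinarith [sq_nonneg (y - 1)]
              have h5 : ((1 + y) ^ 2) ^ 2 ≤ (2 * (1 + y ^ 2)) ^ 2 := pow_le_pow_left₀ (by positivity) h4 2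
              have h6 : 2 * y * (1 + y) ≤ 2 * (1 + y) ^ 2 := by nlinarith
              calc 2 * y * (1 + y) * (1 + y) ^ 2 ≤ 2 * (1 + y) ^ 2 * (1 + y) ^ 2 :=
                    mul_le_mul_of_nonneg_right h6 (by positivity)
                _ = 2 * ((1 + y) ^ 2) ^ 2 := by ring
                _ ≤ 2 * (2 * (1 + y ^ 2)) ^ 2 := by linarith
                _ = 8 * (1 + y ^ 2) ^ 2 := by ring
    refine h2.trans ?_
    rw [intervalIntegral.integral_const_mul, intervalIntegral.integral_const_mul, int_inv_sq hY0 hY1]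
    have : 0 ≤ 1 / (1 + B) := by positivity
    apply mul_le_mul_of_nonneg_left _ hC1
    linarith
  have e : 10 * C1 * (1 / (1 + Y)) = C1 * (2 / (1 + Y)) + C1 * (8 * (1 / (1 + Y))) := by ring
  rw [e]
  linarith

/-- the integrated density grows at most linearly, with the right dependence on `a` -/
lemma G_unif (G : Dat) (hG : G.Good) (hcr : G.Crude) (hPM : S_PM) (hTL : S_TL) {K a0 : ℝ} (hK : 0 < K)
    (hR : ∀ᶠ T : ℝ in atTop, ∀ a : ℝ, 0 < a → a ≤ a0 → a * G.RR a T ≤ K)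
    {a : ℝ} (ha : 0 < a) (haa : 3 * a ≤ a0) :
    ∀ᶠ κ : ℝ in 𝓝[>] 0, ∀ Y : ℝ, 0 ≤ Y → Y ≤ 1 / κ ^ 2 →
      ∫ y in (0 : ℝ)..Y, G.gd κ a y ≤ K / a * (1 + Y) := by
  have hmean : ∀ᶠ T : ℝ in atTop, ∀ b ∈ Icc a (3 * a),
      ∫ t in (0 : ℝ)..T, G.DD (b / Real.log T) t ^ 2 ≤ K / (4 * b) * (T * Real.log T ^ 2) := by
    filter_upwards [hPM G hG hcr a (3 * a) (1 / 4) ha (by linarith) (by norm_num), hR,
      eventually_ge_atTop (0 : ℝ)] with T h2 h3 hT b hb
    have hb0 : 0 < b := by linarith [hb.1]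
    have h4 := (abs_le.1 (h2 b hb)).2
    have h5 := h3 b hb0 (hb.2.trans haa)
    have h6 : G.RR b T ≤ K / b := by rw [le_div_iff₀ hb0]; linarith
    have h8 : 0 ≤ T * Real.log T ^ 2 := by positivity
    have h9 : G.RR b T - G.n ^ 2 ≤ K / b - 1 := by nlinarith [hG.n_pos]
    have h7 := mul_le_mul_of_nonneg_left h9 h8
    have e : K / (4 * b) * (T * Real.log T ^ 2) = T * Real.log T ^ 2 * (K / b) / 4 := by field_simp
    rw [e]
    linarith
  obtain ⟨T0, hT0⟩ := hmean.exists_forall_of_atTop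
  obtain ⟨C, hC, hTLa⟩ := hTL G hG hcr a a ha le_rfl
  filter_upwards [ev_pos, ev_le (c := 1 / 2) (by norm_num), ev_L (max 1 (4 * a)),
    inv_top.eventually_ge_atTop T0, hTLa] with κ hκ hκ1 hL hT hTL1
  have hL1 : 1 ≤ LL κ := (le_max_left _ _).trans hL
  have hL4 : 4 * a ≤ LL κ := (le_max_right _ _).trans hL
  have hLp : 0 < LL κ := by linarith
  have hx0 : 0 < a / LL κ := by positivity
  have hx1 : a / LL κ ≤ 1 / 4 := by rw [div_le_iff₀ hLp]; linarith
  have hgc := (hTL1.2.2.2 a ⟨le_rfl, le_rfl⟩).1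
  have main : ∀ Y : ℝ, 1 ≤ Y → Y ≤ 1 / κ ^ 2 → ∫ y in (0 : ℝ)..Y, G.gd κ a y ≤ K / a * Y := by
    intro Y hY1 hY2
    rw [gd_int G hκ]
    set T : ℝ := Y / κ with hTd
    have hTT : T0 ≤ T := by
      refine hT.trans ?_
      rw [hTd]
      exact div_le_div_of_nonneg_right hY1 hκ.le
    have hTp : 0 < T := by positivity
    have hlog : Real.log T = LL κ + Real.log Y := by
      rw [hTd, Real.log_div (by positivity) hκ.ne']
      unfold LL
      rw [Real.log_div one_ne_zero hκ.ne', Real.log_one]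
      ring
    have hlY0 : 0 ≤ Real.log Y := Real.log_nonneg hY1
    have hlY1 : Real.log Y ≤ 2 * LL κ := by
      have := Real.log_le_log (by linarith) hY2
      rw [one_div, Real.log_inv, Real.log_pow] at this
      unfold LL
      rw [one_div, Real.log_inv]
      push_cast at this
      linarith
    have hlT : LL κ ≤ Real.log T := by linarith
    have hlT3 : Real.log T ≤ 3 * LL κ := by linarith
    have hlTp : 0 < Real.log T := by linarith
    set b : ℝ := a * Real.log T / LL κ with hb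
    have h2 : b / Real.log T = a / LL κ := by rw [hb]; field_simp
    have hb0 : 0 < b := by positivity
    have ha1' : a ≤ b := by
      rw [hb, le_div_iff₀ hLp]
      nlinarith
    have ha2' : b ≤ 3 * a := by
      rw [hb, div_le_iff₀ hLp]
      nlinarith
    have h3 := hT0 T hTT b ⟨ha1', ha2'⟩
    rw [h2] at h3
    calc κ / LL κ ^ 2 * ∫ t in (0 : ℝ)..T, G.DD (a / LL κ) t ^ 2 ≤
          κ / LL κ ^ 2 * (K / (4 * b) * (T * Real.log T ^ 2)) :=
          mul_le_mul_of_nonneg_left h3 (by positivity)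
      _ = K / a * Y * (Real.log T / LL κ) / 4 := by
          have hYT : Y = T * κ := by rw [hTd]; field_simp
          rw [hb, hYT]; field_simp
      _ ≤ K / a * Y * 3 / 4 := by
          have : Real.log T / LL κ ≤ 3 := by rw [div_le_iff₀ hLp]; exact hlT3
          gcongr
      _ ≤ K / a * Y := by
          have : 0 ≤ K / a * Y := by positivity
          linarith
  intro Y hY0 hY
  have hKa : 0 < K / a := by positivity
  rcases le_total 1 Y with hY1 | hY1
  · have := main Y hY1 hY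
    have : K / a * Y ≤ K / a * (1 + Y) := mul_le_mul_of_nonneg_left (by linarith) hKa.le
    linarith
  · have h2 := main 1 le_rfl (by
      rw [le_div_iff₀ (by positivity)]; nlinarith)
    have h3 : ∫ y in (0 : ℝ)..Y, G.gd κ a y ≤ ∫ y in (0 : ℝ)..1, G.gd κ a y :=
      intervalIntegral.integral_mono_interval le_rfl hY0 hY1 (ae_of_all _ fun y => gd_nonneg G κ a y)
        (hgc.intervalIntegrable _ _)
    have : K / a * 1 ≤ K / a * (1 + Y) := mul_le_mul_of_nonneg_left (by linarith) hKa.le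
    linarith

/-- the integrated density at a point -/
lemma G_pt (G : Dat) (hG : G.Good) (hcr : G.Crude) (hPM : S_PM) {K a0 : ℝ}
    (hR : ∀ᶠ T : ℝ in atTop, ∀ a : ℝ, 0 < a → a ≤ a0 → a * G.RR a T ≤ K)
    {a : ℝ} (ha : 0 < a) (haa : 3 * a ≤ a0) {Y : ℝ} (hY : 0 < Y) {δ : ℝ} (hδ : 0 < δ) :
    ∀ᶠ κ : ℝ in 𝓝[>] 0, ∫ y in (0 : ℝ)..Y, G.gd κ a y ≤ (K / a - G.n ^ 2) / 4 * Y + δ := by
  set ε : ℝ := δ / (4 * Y) with hε
  have hε0 : 0 < ε := by positivity
  have hr := r_lim hY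
  set r : ℝ → ℝ := fun κ => Real.log (Y / κ) / LL κ with hrd
  have hlim : Tendsto (fun κ => Y * (r κ ^ 2 * ((K / (a * r κ) - G.n ^ 2) / 4 + ε))) (𝓝[>] 0)
      (𝓝 (Y * (1 ^ 2 * ((K / (a * 1) - G.n ^ 2) / 4 + ε)))) := by
    refine Tendsto.const_mul _ ((hr.pow 2).mul (Tendsto.add_const _ (Tendsto.div_const (Tendsto.sub_const ?_ _) _)))
    exact tendsto_const_nhds.div (hr.const_mul a) (by rw [mul_one]; exact ha.ne')
  have hval : Y * (1 ^ 2 * ((K / (a * 1) - G.n ^ 2) / 4 + ε)) = (K / a - G.n ^ 2) / 4 * Y + δ / 4 := by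
    rw [hε]; field_simp
  rw [hval] at hlim
  filter_upwards [hlim.eventually (ge_mem_nhds (show (K / a - G.n ^ 2) / 4 * Y + δ / 4 < (K / a - G.n ^ 2) / 4 * Y + δ by linarith)),
    (T_top hY).eventually hR, (T_top hY).eventually (hPM G hG hcr (a / 2) (2 * a) ε (by positivity)
      (by linarith) hε0), hr.eventually (le_mem_nhds (show (1 / 2 : ℝ) < 1 by norm_num)),
    hr.eventually (ge_mem_nhds (show (1 : ℝ) < 2 by norm_num)), (T_top hY).eventually_ge_atTop 10, ev_pos, ev_L 1]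
    with κ k0 k1 k2 k3 k4 hT hκ hL
  have hLp : 0 < LL κ := by linarith
  refine le_trans ?_ k0
  rw [gd_int G hκ]
  set T : ℝ := Y / κ with hTd
  have hTp : 0 < T := by linarith
  have hlT : 1 < Real.log T := one_lt_log (by linarith)
  have hlTp : 0 < Real.log T := by linarith
  have hr0 : 0 < r κ := by linarith
  have hb : a * r κ ∈ Icc (a / 2) (2 * a) := by
    constructor
    · nlinarith
    · nlinarith
  have hb0 : 0 < a * r κ := by positivity
  have h1 := k1 (a * r κ) hb0 (by linarith [hb.2])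
  have h2 := (abs_le.1 (k2 (a * r κ) hb)).2
  have hrT : r κ = Real.log T / LL κ := rfl
  have e1 : a * r κ / Real.log T = a / LL κ := by rw [hrT]; field_simp
  rw [e1] at h2
  have h3 : G.RR (a * r κ) T ≤ K / (a * r κ) := by rw [le_div_iff₀ hb0]; linarith
  set X : ℝ := ∫ t in (0 : ℝ)..T, G.DD (a / LL κ) t ^ 2 with hX
  have hP : 0 < T * Real.log T ^ 2 := by positivity
  have h4 : X ≤ (T * Real.log T ^ 2) * ((K / (a * r κ) - G.n ^ 2) / 4 + ε) := by
    have := mul_le_mul_of_nonneg_left h3 hP.le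
    linarith
  calc κ / LL κ ^ 2 * X ≤ κ / LL κ ^ 2 * ((T * Real.log T ^ 2) * ((K / (a * r κ) - G.n ^ 2) / 4 + ε)) :=
        mul_le_mul_of_nonneg_left h4 (by positivity)
    _ = Y * ((Real.log T / LL κ) ^ 2 * ((K / (a * r κ) - G.n ^ 2) / 4 + ε)) := by
        have hYT : Y = T * κ := by rw [hTd]; field_simp
        rw [hYT]; field_simp
    _ = _ := by rw [← hrT]

/-- **upper bound for the Cauchy kernel from the pair sums** -/
theorem KI_cb_up (G : Dat) (hgd : G.Good) (hcr : G.Crude) (hPM : S_PM) (hTL : S_TL) {K a0 : ℝ} (hK : G.n ≤ K)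
    (hR : ∀ᶠ T : ℝ in atTop, ∀ a : ℝ, 0 < a → a ≤ a0 → a * G.RR a T ≤ K)
    {a : ℝ} (ha : 0 < a) (ha1 : a * G.n ≤ 1) (haa : 3 * a ≤ a0) {ε : ℝ} (hε : 0 < ε) :
    ∀ᶠ κ : ℝ in 𝓝[>] 0, G.KI (cb 1) κ a ≤ (K / a - G.n ^ 2) / 4 * (Real.pi / 2) + ε := by
  have hpi := Real.pi_pos
  have hn1 := hgd.n_pos
  have hK0 : 0 < K := by linarith
  set A : ℝ := (K / a - G.n ^ 2) / 4 with hA
  have hA0 : 0 ≤ A := by
    have : G.n ^ 2 ≤ K / a := by rw [le_div_iff₀ ha]; nlinarith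
    rw [hA]; linarith
  have hKa : 0 < K / a := by positivity
  obtain ⟨C, hC, hT⟩ := hTL G hgd hcr a a ha le_rfl
  -- the cut
  obtain ⟨Y2, hY20, hY2⟩ : ∃ Y2 : ℝ, 0 < Y2 ∧ 10 * (K / a) * (1 / (1 + Y2)) ≤ ε / 8 := by
    refine ⟨80 * (K / a) / ε, by positivity, ?_⟩
    rw [mul_one_div, div_le_iff₀ (by positivity)]
    have e : ε / 8 * (1 + 80 * (K / a) / ε) = ε / 8 + 10 * (K / a) := by field_simp; ring
    rw [e]
    linarith
  obtain ⟨N, hN⟩ := exists_nat_gt (8 * (A * Y2) / ε)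
  have hN0 : (0 : ℝ) < N := lt_of_le_of_lt (by positivity) hN
  set h : ℝ := Y2 / N with hh
  have hh0 : 0 < h := by positivity
  have hNh : (N : ℝ) * h = Y2 := by rw [hh]; field_simp
  have hAh : A * h ≤ ε / 8 := by
    rw [hh]
    have e : A * (Y2 / N) = A * Y2 / N := by ring
    rw [e, div_le_iff₀ hN0]
    rw [div_lt_iff₀ hε] at hN
    linarith
  have hG : ∀ᶠ κ : ℝ in 𝓝[>] 0, ∀ j ∈ Finset.range (N + 1), ∫ y in (0 : ℝ)..(j * h), G.gd κ a y ≤
      ε / 8 + A * h * j := by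
    rw [eventually_all_finset]
    intro j _
    rcases Nat.eq_zero_or_pos j with hj | hj
    · refine Eventually.of_forall fun κ => ?_
      rw [hj]
      simp only [Nat.cast_zero, zero_mul, intervalIntegral.integral_same, mul_zero, add_zero]
      positivity
    · have hj0 : (0 : ℝ) < j := by exact_mod_cast hj
      filter_upwards [G_pt G hgd hcr hPM hR ha haa (Y := j * h) (by positivity) (δ := ε / 8) (by positivity)] with κ hκ
      refine hκ.trans (le_of_eq ?_)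
      rw [hA]; ring
  have hfar : ∀ᶠ κ : ℝ in 𝓝[>] 0, C * (1 / (1 + 1 / κ ^ 2) + Real.sqrt κ) ≤ ε / 8 := by
    have h1 : Tendsto (fun κ : ℝ => C * (κ ^ 2 + Real.sqrt κ)) (𝓝[>] 0) (𝓝 (C * (0 ^ 2 + Real.sqrt 0))) :=
      (Continuous.tendsto (by fun_prop) 0).mono_left nhdsWithin_le_nhds
    rw [Real.sqrt_zero] at h1
    have e : C * ((0 : ℝ) ^ 2 + 0) = 0 := by ring
    rw [e] at h1
    filter_upwards [h1.eventually (ge_mem_nhds (show (0 : ℝ) < ε / 8 by positivity)), ev_pos] with κ h2 hκ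
    refine le_trans ?_ h2
    apply mul_le_mul_of_nonneg_left _ hC.le
    have : 1 / (1 + 1 / κ ^ 2) ≤ κ ^ 2 := by
      rw [div_le_iff₀ (by positivity)]
      have e2 : κ ^ 2 * (1 + 1 / κ ^ 2) = κ ^ 2 + 1 := by field_simp
      rw [e2]
      nlinarith [sq_nonneg κ]
    linarith
  filter_upwards [hG, hfar, hT, G_unif G hgd hcr hPM hTL hK0 hR ha haa, ev_pos, ev_le (c := 1 / (Y2 + 1)) (by positivity),
    ev_le (c := 1) one_pos, ev_L (max 1 (4 * a))] with κ k1 k2 k3 k4 hκ hκY hκ1 hL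
  have hL1 : 1 ≤ LL κ := (le_max_left _ _).trans hL
  have hL4 : 4 * a ≤ LL κ := (le_max_right _ _).trans hL
  have hLp : 0 < LL κ := by linarith
  have hx0 : 0 < a / LL κ := by positivity
  have hx1 : a / LL κ ≤ 1 / 4 := by rw [div_le_iff₀ hLp]; linarith
  obtain ⟨hgc, hgi, htail, -⟩ := k3.2.2.2 a ⟨le_rfl, le_rfl⟩
  have hB0 : 0 < 1 / κ ^ 2 := by positivity
  have hYB : Y2 ≤ 1 / κ ^ 2 := by
    rw [le_div_iff₀ (by positivity)]
    rw [le_div_iff₀ (by positivity)] at hκY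
    nlinarith
  have hcc := cb_cont (b := 1) one_pos
  have i1 : Integrable (fun y => cb 1 y * G.gd κ a y) :=
    gd_integrable G hcc hgc (B := 2) (fun y => by
      rw [abs_of_nonneg (cb_nonneg one_pos y)]
      refine (cb_le one_pos y).trans (le_of_eq (by norm_num))) hgi
  have hii : ∀ p q : ℝ, IntervalIntegrable (fun y => cb 1 y * G.gd κ a y) volume p q := fun p q =>
    (hcc.mul hgc).intervalIntegrable _ _
  -- the near part
  set I : ℕ → ℝ := fun j => ∫ y in (j * h)..((j + 1 : ℕ) * h), G.gd κ a y with hI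
  have hsumI : ∀ j : ℕ, ∑ i ∈ Finset.range j, I i = ∫ y in (0 : ℝ)..(j * h), G.gd κ a y := by
    intro j
    have := intervalIntegral.sum_integral_adjacent_intervals (a := fun k : ℕ => (k : ℝ) * h) (n := j)
      (f := G.gd κ a) (μ := volume) fun k _ => hgc.intervalIntegrable _ _
    simp only [Nat.cast_zero, zero_mul] at this
    exact this
  have hab := abel_sum (φ := fun j : ℕ => cb 1 (j * h)) (I := I) (W := ε / 8) (K := A * h)
    (fun j => cb_anti (by positivity) (by push_cast; nlinarith)) (fun j => cb_nonneg one_pos _)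
    (by positivity) N (fun j hj => by
      rw [hsumI]
      exact k1 j (Finset.mem_range.2 (by omega)))
  have hnear : ∫ y in (0 : ℝ)..Y2, cb 1 y * G.gd κ a y ≤ ∑ j ∈ Finset.range N, cb 1 (j * h) * I j := by
    have := intervalIntegral.sum_integral_adjacent_intervals (a := fun k : ℕ => (k : ℝ) * h) (n := N)
      (f := fun y => cb 1 y * G.gd κ a y) (μ := volume) fun k _ => hii _ _
    simp only [Nat.cast_zero, zero_mul] at this
    rw [← hNh, ← this]
    refine Finset.sum_le_sum fun j _ => ?_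
    rw [hI]
    simp only
    rw [← intervalIntegral.integral_const_mul]
    refine intervalIntegral.integral_mono_on ?_ (hii _ _) ((hgc.intervalIntegrable _ _).const_mul _) fun y hy => ?_
    · push_cast; nlinarith
    · exact mul_le_mul_of_nonneg_right (cb_anti (by positivity) hy.1) (gd_nonneg G κ a y)
  have hgrid := cb_grid hh0 N
  have hnear2 : ∫ y in (0 : ℝ)..Y2, cb 1 y * G.gd κ a y ≤ A * (Real.pi / 2) + ε / 4 := by
    have h0 : cb 1 (((0 : ℕ) : ℝ) * h) = 1 := by unfold cb; simp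
    have h5 : ε / 8 * cb 1 (((0 : ℕ) : ℝ) * h) + A * h * ∑ j ∈ Finset.range N, cb 1 (j * h) ≤
        A * (Real.pi / 2) + ε / 4 := by
      rw [h0, mul_one]
      have h6 : A * (h * ∑ j ∈ Finset.range N, cb 1 (j * h)) ≤ A * (h + Real.pi / 2) :=
        mul_le_mul_of_nonneg_left hgrid hA0
      have e : A * h * ∑ j ∈ Finset.range N, cb 1 (j * h) = A * (h * ∑ j ∈ Finset.range N, cb 1 (j * h)) := by ring
      rw [e]
      linarith
    exact hnear.trans (hab.trans h5)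
  -- the tails
  have ecb : ∀ y, cb 1 y * G.gd κ a y = G.gd κ a y / (1 + y ^ 2) := by
    intro y
    unfold cb
    rw [one_pow]
    ring
  have hmid := tail_near G hκ hgc hKa.le k4 hY20.le hYB
  have hfar2 := htail (1 / κ ^ 2) hB0.le le_rfl
  have s1 := intervalIntegral.integral_Ioi_sub_Ioi i1.integrableOn hY20.le
  have s2 := intervalIntegral.integral_Ioi_sub_Ioi (i1.integrableOn (s := Ioi Y2)) hYB
  have m1 : ∫ y in Y2..(1 / κ ^ 2), cb 1 y * G.gd κ a y ≤ ε / 8 := by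
    simp only [ecb]
    exact hmid.trans hY2
  have m2 : ∫ y in Ioi (1 / κ ^ 2), cb 1 y * G.gd κ a y ≤ ε / 8 := by
    simp only [ecb]
    exact hfar2.trans k2
  unfold Dat.KI
  linarith

/-- **the weighted integral for the primes from the pair sums** -/
theorem SS_of_R (G : Dat) (hgd : G.Good) (hcr : G.Crude) (hPM : S_PM) (hTL : S_TL) (hT1b : S_T1b) (hKIL : S_KIL)
    {K a0 : ℝ} (hK : G.n ≤ K)
    (hR : ∀ᶠ T : ℝ in atTop, ∀ a : ℝ, 0 < a → a ≤ a0 → a * G.RR a T ≤ K)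
    {a : ℝ} (ha : 0 < a) (ha1 : a * G.n ≤ 1) (haa : 3 * a ≤ a0) {ε : ℝ} (hε : 0 < ε) :
    ∀ᶠ κ : ℝ in 𝓝[>] 0, G.SS κ (a / LL κ) ≤
      ((G.n / a - G.n ^ 2) / 2 + 5 * (K - G.n) / (4 * a) + ε) * (κ * LL κ ^ 2) := by
  have hpi := Real.pi_pos
  set c : ℝ := (G.n / a - G.n ^ 2) / 4 with hc
  set f : ℝ → ℝ := fun y => 5 * cb 1 y - kk 1 y with hf
  have hcb : ∀ y, cb 1 y = 1 / (1 + y ^ 2) := fun y => by unfold cb; rw [one_pow]
  have hfc : Continuous f := (continuous_const.mul (cb_cont one_pos)).sub (kk_cont 1)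
  have hkk : ∀ y, kk 1 y ≤ 5 * cb 1 y := fun y => by
    rw [hcb]
    refine (kk_le 1 y).trans (le_of_eq (by norm_num))
  have hf0 : ∀ y, 0 ≤ f y := fun y => by
    have := hkk y
    rw [hf]; simp only; linarith
  have hfB : ∀ y, f y ≤ 5 * (1 / (1 + y ^ 2)) := fun y => by
    have := kk_nonneg 1 y
    rw [hf]; simp only; rw [hcb]; linarith
  have hfi : IntegrableOn f (Ioi 0) := (cb_one_int.1.const_mul 5).sub kk_one_int.1
  have hfv : ∫ y in Ioi (0 : ℝ), f y = 3 * Real.pi / 2 := by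
    rw [hf, integral_sub (cb_one_int.1.const_mul 5) kk_one_int.1, integral_const_mul, cb_one_int.2, kk_one_int.2]
    ring
  have hlow := hKIL G hgd hcr a f 5 (ε / 16) ha ha1 hfc hf0 hfB hfi (by positivity)
  rw [hfv, ← hc] at hlow
  filter_upwards [hlow, KI_cb_up G hgd hcr hPM hTL hK hR ha ha1 haa (ε := ε / 16) (by positivity),
    (hT1b G hgd hcr a a ha le_rfl).1 (ε / 4) (by positivity), (hTL G hgd hcr a a ha le_rfl).choose_spec.2,
    ev_pos, ev_L (max 1 (4 * a))] with κ k1 k2 k3 k4 hκ hL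
  have hL1 : 1 ≤ LL κ := (le_max_left _ _).trans hL
  have hL4 : 4 * a ≤ LL κ := (le_max_right _ _).trans hL
  have hLp : 0 < LL κ := by linarith
  have hx0 : 0 < a / LL κ := by positivity
  have hx1 : a / LL κ ≤ 1 / 4 := by rw [div_le_iff₀ hLp]; linarith
  have hQ : 0 < κ * LL κ ^ 2 := by positivity
  obtain ⟨hgc, hgi, -, -⟩ := k4.2.2.2 a ⟨le_rfl, le_rfl⟩
  have i1 : Integrable (fun y => cb 1 y * G.gd κ a y) :=
    gd_integrable G (cb_cont one_pos) hgc (B := 2) (fun y => by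
      rw [abs_of_nonneg (cb_nonneg one_pos y)]
      refine (cb_le one_pos y).trans (le_of_eq (by norm_num))) hgi
  have i2 : Integrable (fun y => kk 1 y * G.gd κ a y) :=
    gd_integrable G (kk_cont 1) hgc (fun y => by rw [abs_of_nonneg (kk_nonneg 1 y)]; exact kk_le 1 y) hgi
  have hKf : G.KI f κ a = 5 * G.KI (cb 1) κ a - G.KI (kk 1) κ a := by
    unfold Dat.KI
    rw [← integral_const_mul, ← integral_sub (i1.integrableOn.const_mul 5) i2.integrableOn]
    refine integral_congr_ae (ae_of_all _ fun y => ?_)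
    show (5 * cb 1 y - kk 1 y) * G.gd κ a y = 5 * (cb 1 y * G.gd κ a y) - kk 1 y * G.gd κ a y
    ring
  rw [hKf] at k1
  have k5 : G.KI (kk 1) κ a ≤ c * Real.pi + 5 * Real.pi / 2 * ((K - G.n) / (4 * a)) + 3 * ε / 8 := by
    have e : (K / a - G.n ^ 2) / 4 = c + (K - G.n) / (4 * a) := by rw [hc]; field_simp; ring
    rw [e] at k2
    linarith
  have k6 := (abs_le.1 (k3 a ⟨le_rfl, le_rfl⟩)).2
  have k7 : 2 / Real.pi * G.KI (kk 1) κ a ≤ 2 * c + 5 * (K - G.n) / (4 * a) + ε / 4 := by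
    have h1 := mul_le_mul_of_nonneg_left k5 (show 0 ≤ 2 / Real.pi by positivity)
    refine h1.trans ?_
    have e : 2 / Real.pi * (c * Real.pi + 5 * Real.pi / 2 * ((K - G.n) / (4 * a)) + 3 * ε / 8) =
      2 * c + 5 * (K - G.n) / (4 * a) + 3 * ε / (4 * Real.pi) := by field_simp; ring
    rw [e]
    have : 3 * ε / (4 * Real.pi) ≤ ε / 4 := by
      rw [div_le_div_iff₀ (by positivity) (by norm_num)]
      nlinarith [Real.pi_gt_three]
    linarith
  have e2 : 2 / Real.pi * (κ * LL κ ^ 2 * G.KI (kk 1) κ a) =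
      2 / Real.pi * G.KI (kk 1) κ a * (κ * LL κ ^ 2) := by ring
  rw [e2] at k6
  have k8 := mul_le_mul_of_nonneg_right k7 hQ.le
  have e3 : ((G.n / a - G.n ^ 2) / 2 + 5 * (K - G.n) / (4 * a) + ε) * (κ * LL κ ^ 2) =
    (2 * c + 5 * (K - G.n) / (4 * a) + ε / 4) * (κ * LL κ ^ 2) + 3 * ε / 4 * (κ * LL κ ^ 2) := by rw [hc]; ring
  rw [e3]
  have : 0 ≤ ε / 4 * (κ * LL κ ^ 2) := by positivity
  have : 3 * ε / 4 * (κ * LL κ ^ 2) = 3 * (ε / 4 * (κ * LL κ ^ 2)) := by ring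
  linarith

/-- **upper bound for the primes from the pair sums** -/
theorem t_SSR (h1 : S_PM) (h2 : S_TL) (h3 : S_T1b) (h4 : S_KIL) : S_SSR := by
  intro G hG hcr K a0 hK hR a ε ha han haa hε
  exact SS_of_R G hG hcr h1 h2 h3 h4 hK hR ha han haa hε

end Pool.Agent.Q24.GX
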